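import Mathlib

set_option autoImplicit false

/-!
An upper bound for the Mahler measure of a polynomial which is small where many given powers of the
variable are all close to `1`.
-/

namespace Pool.Agent.Q295.VP

open Finset Polynomial Real

/-- numbers with `q` digits smaller than `B0` in base `B` -/
def MS (B0 B : ℕ) : ℕ → Finset ℕ
  | 0 => {0}
  | q + 1 => (range B0 ×ˢ MS B0 B q).image (fun x => x.1 * B ^ q + x.2)

theorem MS_lt {B0 B : ℕ} (h : B0 ≤ B) : ∀ q m, m ∈ MS B0 B q → m < B ^ q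
  | 0, m, hm => by simp [MS] at hm; simp [hm]
  | q + 1, m, hm => by
    simp only [MS, mem_image, mem_product, mem_range, Prod.exists] at hm
    obtain ⟨b, m', ⟨hb, hm'⟩, rfl⟩ := hm
    have h1 := MS_lt h q m' hm'
    have h2 : (b + 1) * B ^ q ≤ B * B ^ q := Nat.mul_le_mul_right _ (by omega)
    have h3 : B ^ (q + 1) = B * B ^ q := by ring
    rw [h3]
    nlinarith

theorem MS_card {B0 B : ℕ} (h : B0 ≤ B) : ∀ q, (MS B0 B q).card = B0 ^ q
  | 0 => by simp [MS]
  | q + 1 => by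
    rw [MS, card_image_of_injOn, card_product, card_range, MS_card h q]
    · ring
    · rintro ⟨b, m⟩ hx ⟨b', m'⟩ hx' he
      simp only [coe_product, Set.mem_prod, mem_coe] at hx hx'
      simp only at he
      have h1 := MS_lt h q m hx.2
      have h2 := MS_lt h q m' hx'.2
      have h3 : b = b' := by
        have e1 : (b * B ^ q + m) / B ^ q = b := by
          rw [mul_comm, Nat.mul_add_div (by omega), Nat.div_eq_of_lt h1, add_zero]
        have e2 : (b' * B ^ q + m') / B ^ q = b' := by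
          rw [mul_comm, Nat.mul_add_div (by omega), Nat.div_eq_of_lt h2, add_zero]
        rw [← e1, he, e2]
      subst h3
      simp only [Prod.mk.injEq, true_and]
      omega

theorem MS_mod {B0 B : ℕ} (h : B0 ≤ B) : ∀ q m, m ∈ MS B0 B q → ∀ j < q,
    m % B ^ (j + 1) < B0 * B ^ j
  | 0, _, _, j, hj => absurd hj (Nat.not_lt_zero _)
  | q + 1, m, hm, j, hj => by
    have hm0 := hm
    simp only [MS, mem_image, mem_product, mem_range, Prod.exists] at hm
    obtain ⟨b, m', ⟨hb, hm'⟩, rfl⟩ := hm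
    have h1 := MS_lt h q m' hm'
    by_cases hjq : j = q
    · subst hjq
      refine (Nat.mod_le _ _).trans_lt ?_
      have h2 : (b + 1) * B ^ j ≤ B0 * B ^ j := Nat.mul_le_mul_right _ (by omega)
      nlinarith
    · have hd : B ^ (j + 1) ∣ b * B ^ q := (pow_dvd_pow B (by omega)).mul_left b
      obtain ⟨c, hc⟩ := hd
      rw [hc, Nat.mul_add_mod]
      exact MS_mod h q m' hm' j (by omega)

theorem zeros_finite (p : ℂ[X]) (hp : p ≠ 0) :
    ({x : ℝ | eval (circleMap 0 1 x) p = 0} ∩ Set.Ico 0 (2 * π)).Finite := by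
  apply Set.Finite.of_finite_image (f := circleMap 0 1)
    ((Multiset.finite_toSet p.roots).subset _)
  · intro x hx y hy hxy
    exact injOn_circleMap_of_abs_sub_le' one_ne_zero (by linarith) hx.2 hy.2 hxy
  · rintro _ ⟨x, hx, rfl⟩
    simp only [Set.mem_ofPred_eq]
    rw [mem_roots hp]
    exact hx.1

theorem int_le (p : ℂ[X]) (hp : p ≠ 0) {a b K : ℝ} (h0 : 0 ≤ a) (hab : a ≤ b) (hb : b ≤ 2 * π)
    (h : ∀ x ∈ Set.Icc a b, eval (circleMap 0 1 x) p ≠ 0 →
      log ‖eval (circleMap 0 1 x) p‖ ≤ K) :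
    ∫ x in a..b, log ‖eval (circleMap 0 1 x) p‖ ≤ K * (b - a) := by
  have hint : IntervalIntegrable (fun x => log ‖eval (circleMap 0 1 x) p‖)
      MeasureTheory.volume a b := by
    apply p.intervalIntegrable_mahlerMeasure.mono_set
    rw [Set.uIcc_of_le hab, Set.uIcc_of_le (by positivity)]
    exact Set.Icc_subset_Icc h0 hb
  have h1 : ∫ x in a..b, log ‖eval (circleMap 0 1 x) p‖ ≤ ∫ _ in a..b, K := by
    apply intervalIntegral.integral_mono_ae_restrict hab hint (by simp)
    rw [Filter.EventuallyLE, Filter.eventually_iff_exists_mem]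
    refine ⟨{x : ℝ | eval (circleMap 0 1 x) p ≠ 0} ∩ Set.Icc a b, ?_, ?_⟩
    · rw [MeasureTheory.mem_ae_iff, Set.compl_def, MeasureTheory.Measure.restrict_apply' (by simp)]
      apply Set.Finite.measure_zero
      apply ((zeros_finite p hp).union (Set.finite_singleton (2 * π))).subset
      rintro x ⟨hx1, hx2⟩
      simp only [Set.mem_inter_iff, Set.mem_ofPred_eq, not_and] at hx1
      have hx3 : eval (circleMap 0 1 x) p = 0 := by
        by_contra hc
        exact hx1 hc hx2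
      by_cases hx4 : x = 2 * π
      · right; exact hx4
      · left
        exact ⟨hx3, h0.trans hx2.1, lt_of_le_of_ne (hx2.2.trans hb) hx4⟩
    · rintro x ⟨hx1, hx2⟩
      exact h x hx2 hx1
  rw [intervalIntegral.integral_const, smul_eq_mul] at h1
  linarith

/-- powers of points of a small arc -/
theorem re_pow {B0 B q m j : ℕ} (hB : B = 6 * B0) (hB0 : 0 < B0) (hj : j < q)
    (hm : m ∈ MS B0 B q) {x : ℝ} (hx : x ∈ Set.Icc (2 * π * (m / (B : ℝ) ^ q))
      (2 * π * ((m + 1) / (B : ℝ) ^ q))) :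
    1 / 2 ≤ ((circleMap 0 1 x) ^ (B ^ j)).re := by
  have hBpos : (0 : ℝ) < B := by rw [hB]; positivity
  have hle : B0 ≤ B := by omega
  -- e = q - j - 1
  obtain ⟨e, he⟩ : ∃ e, q = j + (e + 1) := ⟨q - j - 1, by omega⟩
  have hmod := MS_mod hle q m hm e (by omega)
  set t := m % B ^ (e + 1) with ht
  set c := m / B ^ (e + 1) with hc
  have hdm : m = B ^ (e + 1) * c + t := (Nat.div_add_mod _ _).symm
  have hpow : (circleMap 0 1 x) ^ (B ^ j) = circleMap 0 1 ((B : ℝ) ^ j * x) := by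
    rw [circleMap_zero, circleMap_zero]
    simp only [Complex.ofReal_one, one_mul]
    rw [← Complex.exp_nat_mul]
    congr 1
    push_cast
    ring
  rw [hpow]
  have hre : (circleMap 0 1 ((B : ℝ) ^ j * x)).re = cos ((B : ℝ) ^ j * x) := by
    rw [circleMap_zero]
    simp only [Complex.ofReal_one, one_mul]
    rw [Complex.exp_ofReal_mul_I_re]
  rw [hre]
  have hred : cos ((B : ℝ) ^ j * x) = cos ((B : ℝ) ^ j * x - c * (2 * π)) := by
    rw [Real.cos_sub_nat_mul_two_pi]
  rw [hred]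
  have hBe : (0 : ℝ) < (B : ℝ) ^ (e + 1) := by positivity
  have hBj : (0 : ℝ) < (B : ℝ) ^ j := by positivity
  have hq : (B : ℝ) ^ q = (B : ℝ) ^ j * (B : ℝ) ^ (e + 1) := by rw [he, pow_add]
  have hmr : (m : ℝ) = (B : ℝ) ^ (e + 1) * c + t := by exact_mod_cast hdm
  have hpi := Real.pi_pos
  have lower : 0 ≤ (B : ℝ) ^ j * x - c * (2 * π) := by
    have h1 : (B : ℝ) ^ j * (2 * π * (m / (B : ℝ) ^ q)) ≤ (B : ℝ) ^ j * x :=
      mul_le_mul_of_nonneg_left hx.1 hBj.le
    have h2 : (B : ℝ) ^ j * (2 * π * (m / (B : ℝ) ^ q)) = 2 * π * (m / (B : ℝ) ^ (e + 1)) := by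
      rw [hq]; field_simp
    have h3 : (c : ℝ) ≤ m / (B : ℝ) ^ (e + 1) := by
      rw [le_div_iff₀ hBe, hmr]
      have : (0 : ℝ) ≤ t := Nat.cast_nonneg _
      nlinarith
    nlinarith
  have upper : (B : ℝ) ^ j * x - c * (2 * π) ≤ π / 3 := by
    have h1 : (B : ℝ) ^ j * x ≤ (B : ℝ) ^ j * (2 * π * ((m + 1) / (B : ℝ) ^ q)) :=
      mul_le_mul_of_nonneg_left hx.2 hBj.le
    have h2 : (B : ℝ) ^ j * (2 * π * ((m + 1) / (B : ℝ) ^ q)) =
        2 * π * ((m + 1) / (B : ℝ) ^ (e + 1)) := by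
      rw [hq]; field_simp
    have h3 : ((m : ℝ) + 1) / (B : ℝ) ^ (e + 1) ≤ c + 1 / 6 := by
      rw [div_le_iff₀ hBe, hmr]
      have h4 : t + 1 ≤ B0 * B ^ e := hmod
      have h5 : ((t : ℝ) + 1) ≤ B0 * (B : ℝ) ^ e := by exact_mod_cast h4
      have h6 : (B : ℝ) ^ (e + 1) = 6 * (B0 * (B : ℝ) ^ e) := by
        rw [pow_succ, hB]; push_cast; ring
      have h7 : (1 / 6 : ℝ) * (B : ℝ) ^ (e + 1) = B0 * (B : ℝ) ^ e := by rw [h6]; ring
      nlinarith
    nlinarith
  rw [← Real.cos_pi_div_three]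
  apply Real.cos_le_cos_of_nonneg_of_le_pi lower (by linarith) upper

/-- the main inequality -/
theorem core_ineq (p : ℤ[X]) (hp : p ≠ 0) (B0 q : ℕ) (hB0 : 0 < B0) (L r : ℝ) (hL : 0 < L)
    (hr : 0 < r)
    (h1 : ∀ x : ℂ, ‖x‖ = 1 → ‖eval x (p.map (Int.castRingHom ℂ))‖ ≤ L)
    (h2 : ∀ x : ℂ, ‖x‖ = 1 → (∀ j < q, 1 / 2 ≤ (x ^ ((6 * B0) ^ j)).re) →
      ‖eval x (p.map (Int.castRingHom ℂ))‖ ≤ L * r) :
    0 ≤ log L + (1 / 6) ^ q * log r := by
  set P := p.map (Int.castRingHom ℂ) with hP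
  have hP0 : P ≠ 0 := by
    rw [hP]
    exact (Polynomial.map_ne_zero_iff (RingHom.injective_int (Int.castRingHom ℂ))).mpr hp
  set B := 6 * B0 with hB
  have hle : B0 ≤ B := by omega
  have hBpos : 0 < B := by omega
  set Q := B ^ q with hQ
  have hQpos : 0 < Q := by positivity
  have hM := one_le_mahlerMeasure_of_ne_zero hp
  rw [← hP] at hM
  have hlog : 0 ≤ P.logMahlerMeasure := by
    rw [logMahlerMeasure_eq_log_MahlerMeasure]
    exact log_nonneg hM
  rw [logMahlerMeasure_def, circleAverage_def, smul_eq_mul] at hlog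
  have hpi := Real.pi_pos
  have hint0 : 0 ≤ ∫ θ in (0 : ℝ)..2 * π, log ‖eval (circleMap 0 1 θ) P‖ := by
    by_contra hc
    push Not at hc
    have : (2 * π)⁻¹ * ∫ θ in (0 : ℝ)..2 * π, log ‖eval (circleMap 0 1 θ) P‖ < 0 :=
      mul_neg_of_pos_of_neg (by positivity) hc
    linarith
  let a : ℕ → ℝ := fun m => 2 * π * (m / (B : ℝ) ^ q)
  have hBr : (0 : ℝ) < (B : ℝ) ^ q := by
    have : (0 : ℝ) < B := by exact_mod_cast hBpos
    positivity
  have ha0 : a 0 = 0 := by simp [a]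
  have haQ : a Q = 2 * π := by
    simp only [a, hQ]
    push_cast
    field_simp
  have hmono : ∀ m m' : ℕ, m ≤ m' → a m ≤ a m' := by
    intro m m' hmm
    simp only [a]
    gcongr
  have hrange : ∀ m, m ≤ Q → 0 ≤ a m ∧ a m ≤ 2 * π := by
    intro m hm
    constructor
    · rw [← ha0]; exact hmono 0 m (Nat.zero_le _)
    · rw [← haQ]; exact hmono m Q hm
  have hnorm : ∀ x : ℝ, ‖circleMap 0 1 x‖ = 1 := by
    intro x
    simp [circleMap_zero, Complex.norm_exp_ofReal_mul_I]
  have hstep : ∀ m : ℕ, a (m + 1) - a m = 2 * π / (B : ℝ) ^ q := by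
    intro m
    simp only [a]
    push_cast
    field_simp
    ring
  have hsum := intervalIntegral.sum_integral_adjacent_intervals (n := Q) (a := a)
    (f := fun θ => log ‖eval (circleMap 0 1 θ) P‖) (μ := MeasureTheory.volume) (by
      intro m hm
      apply P.intervalIntegrable_mahlerMeasure.mono_set
      rw [Set.uIcc_of_le (hmono _ _ (Nat.le_succ m)), Set.uIcc_of_le (by positivity)]
      exact Set.Icc_subset_Icc (hrange m hm.le).1 (hrange (m + 1) hm).2)
  rw [ha0, haQ] at hsum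
  let K : ℕ → ℝ := fun m => log L + if m ∈ MS B0 B q then log r else 0
  have hbound : ∀ m ∈ range Q, ∫ θ in a m..a (m + 1), log ‖eval (circleMap 0 1 θ) P‖ ≤
      K m * (2 * π / (B : ℝ) ^ q) := by
    intro m hm
    rw [mem_range] at hm
    rw [← hstep m]
    apply int_le P hP0 (hrange m hm.le).1 (hmono _ _ (Nat.le_succ m)) (hrange (m + 1) hm).2
    intro x hx hx0
    have hpos : 0 < ‖eval (circleMap 0 1 x) P‖ := norm_pos_iff.mpr hx0
    simp only [K]
    split_ifs with hmem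
    · rw [← log_mul hL.ne' hr.ne']
      apply log_le_log hpos
      apply h2 _ (hnorm x)
      intro j hj
      apply re_pow (hB) hB0 hj hmem
      simp only [a] at hx
      push_cast at hx
      exact hx
    · rw [add_zero]
      exact log_le_log hpos (h1 _ (hnorm x))
  have hle2 := sum_le_sum hbound
  rw [hsum, ← sum_mul] at hle2
  have hKsum : ∑ m ∈ range Q, K m = Q * log L + (B0 ^ q : ℕ) * log r := by
    simp only [K]
    rw [sum_add_distrib, sum_const, card_range, nsmul_eq_mul, ← sum_filter, sum_const, nsmul_eq_mul]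
    congr 2
    have : (range Q).filter (fun m => m ∈ MS B0 B q) = MS B0 B q := by
      ext m
      simp only [mem_filter, mem_range, and_iff_right_iff_imp]
      intro hm
      exact MS_lt hle q m hm
    rw [this, MS_card hle q]
  rw [hKsum] at hle2
  have hfin : (0 : ℝ) ≤ (Q * log L + (B0 ^ q : ℕ) * log r) * (2 * π / (B : ℝ) ^ q) :=
    hint0.trans hle2
  have hexp : (Q * log L + (B0 ^ q : ℕ) * log r) * (2 * π / (B : ℝ) ^ q) =
      2 * π * (log L + (1 / 6) ^ q * log r) := by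
    have h3 : (B : ℝ) ^ q = 6 ^ q * (B0 : ℝ) ^ q := by
      rw [hB]; push_cast; rw [mul_pow]
    have h4 : (Q : ℝ) = (B : ℝ) ^ q := by rw [hQ]; push_cast; rfl
    have h5 : (0 : ℝ) < (B0 : ℝ) := by exact_mod_cast hB0
    rw [h4, h3]
    push_cast
    rw [div_pow, one_pow]
    field_simp
  rw [hexp] at hfin
  by_contra hc
  push Not at hc
  have : 2 * π * (log L + (1 / 6) ^ q * log r) < 0 := mul_neg_of_pos_of_neg (by positivity) hc
  linarith

end Pool.Agent.Q295.VP
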