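import Pool.Agent.Q295.VP.Ana
import Pool.Agent.H234RC.T1

set_option autoImplicit false
set_option linter.unusedSectionVars false

/-!
The numbers of `k`-tuples of vertices with given numbers of outside vertices of each type, in
hypomorphic graphs.
-/

namespace Pool.Agent.Q295.VP

open Finset Polynomial Classical
open Pool.Agent.H234RC (Hypo NonIso Reconstructible exists_hypo)

variable {V : Type} [Fintype V] {k : ℕ}

/-- the type of `y` with respect to the tuple `a` -/
def ty {V : Type} {k : ℕ} (G : SimpleGraph V) (a : Fin k → V) (y : V) : Set (Fin k) :=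
  {i | G.Adj y (a i)}

/-- tuples of different vertices with the adjacencies `F` -/
noncomputable def Tup (G : SimpleGraph V) (F : Fin k → Fin k → Prop) : Finset (Fin k → V) :=
  univ.filter (fun a => Function.Injective a ∧ ∀ i j, G.Adj (a i) (a j) ↔ F i j)

/-- the vertices which are not in the tuple -/
noncomputable def Out (a : Fin k → V) : Finset V := univ.filter (fun y => ∀ i, a i ≠ y)

/-- the generating polynomial -/
noncomputable def Fp (G : SimpleGraph V) (F : Fin k → Fin k → Prop) (w : Set (Fin k) → ℂ) : ℂ[X] :=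
  ∑ a ∈ Tup G F, ∏ y ∈ Out a, (C (w (ty G a y)) + X)

/-- the generating polynomial of a card -/
noncomputable def Fv (G : SimpleGraph V) (F : Fin k → Fin k → Prop) (w : Set (Fin k) → ℂ) (v : V) :
    ℂ[X] :=
  ∑ a ∈ (Tup G F).filter (fun a => v ∈ Out a), ∏ y ∈ (Out a).erase v, (C (w (ty G a y)) + X)

theorem mem_Tup {G : SimpleGraph V} {F : Fin k → Fin k → Prop} {a : Fin k → V} :
    a ∈ Tup G F ↔ Function.Injective a ∧ ∀ i j, G.Adj (a i) (a j) ↔ F i j := by
  simp [Tup]

theorem mem_Out {a : Fin k → V} {y : V} : y ∈ Out a ↔ ∀ i, a i ≠ y := by simp [Out]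

theorem pi_ne {G H : SimpleGraph V} {π : V → Equiv.Perm V} (hH : Hypo G H π) {v x : V} :
    π v x ≠ v ↔ x ≠ v := by
  constructor
  · intro h hx
    apply h
    rw [hx, hH.fix v]
  · intro h hx
    apply h
    apply (π v).injective
    rw [hx, hH.fix v]

theorem card_Out {a : Fin k → V} (ha : Function.Injective a) :
    (Out a).card = Fintype.card V - k := by
  have h1 : Out a = univ \ (univ.image a) := by
    ext y
    rw [mem_Out, mem_sdiff, mem_image]
    simp
  rw [h1, card_sdiff_of_subset (subset_univ _), card_univ, card_image_of_injective _ ha, card_univ,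
    Fintype.card_fin]

theorem Fv_eq {G H : SimpleGraph V} {π : V → Equiv.Perm V} (hH : Hypo G H π)
    (F : Fin k → Fin k → Prop) (w : Set (Fin k) → ℂ) (v : V) : Fv G F w v = Fv H F w v := by
  unfold Fv
  apply sum_bij (fun a _ => fun i => π v (a i))
  · intro a ha
    rw [mem_filter, mem_Tup, mem_Out] at ha ⊢
    obtain ⟨⟨h1, h2⟩, h3⟩ := ha
    refine ⟨⟨(π v).injective.comp h1, fun i j => ?_⟩, fun i => (pi_ne hH).mpr (h3 i)⟩
    rw [hH.adj v _ _ (h3 i) (h3 j)]
    exact h2 i j
  · intro a _ b _ h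
    funext i
    exact (π v).injective (congrFun h i)
  · intro b hb
    rw [mem_filter, mem_Tup, mem_Out] at hb
    obtain ⟨⟨h1, h2⟩, h3⟩ := hb
    have h4 : ∀ i, π v ((π v).symm (b i)) = b i := fun i => (π v).apply_symm_apply _
    have h5 : ∀ i, (π v).symm (b i) ≠ v := by
      intro i
      rw [← pi_ne hH, h4]
      exact h3 i
    refine ⟨fun i => (π v).symm (b i), ?_, funext h4⟩
    rw [mem_filter, mem_Tup, mem_Out]
    refine ⟨⟨(π v).symm.injective.comp h1, fun i j => ?_⟩, h5⟩
    rw [← h2 i j, ← hH.adj v _ _ (h5 i) (h5 j), h4, h4]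
  · intro a ha
    rw [mem_filter, mem_Tup, mem_Out] at ha
    obtain ⟨⟨h1, h2⟩, h3⟩ := ha
    apply prod_bij (fun y _ => π v y)
    · intro y hy
      rw [mem_erase, mem_Out] at hy ⊢
      exact ⟨(pi_ne hH).mpr hy.1, fun i e => hy.2 i ((π v).injective e)⟩
    · intro y _ z _ h
      exact (π v).injective h
    · intro y hy
      obtain ⟨x, rfl⟩ := (π v).surjective y
      rw [mem_erase, mem_Out] at hy
      refine ⟨x, ?_, rfl⟩
      rw [mem_erase, mem_Out]
      exact ⟨(pi_ne hH).mp hy.1, fun i e => hy.2 i (by rw [e])⟩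
    · intro y hy
      rw [mem_erase, mem_Out] at hy
      have : ty H (fun i => π v (a i)) (π v y) = ty G a y := by
        ext i
        exact hH.adj v _ _ hy.1 (h3 i)
      rw [this]

theorem deriv_Fp (G : SimpleGraph V) (F : Fin k → Fin k → Prop) (w : Set (Fin k) → ℂ) :
    derivative (Fp G F w) = ∑ v, Fv G F w v := by
  unfold Fp Fv
  rw [derivative_sum]
  have h1 : ∀ a ∈ Tup G F, derivative (∏ y ∈ Out a, (C (w (ty G a y)) + X)) =
      ∑ v : V, if v ∈ Out a then ∏ y ∈ (Out a).erase v, (C (w (ty G a y)) + X) else 0 := by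
    intro a _
    rw [derivative_prod_finset, ← sum_filter]
    have : univ.filter (fun v => v ∈ Out a) = Out a := by ext; simp
    rw [this]
    apply sum_congr rfl
    intro v _
    simp
  rw [sum_congr rfl h1, sum_comm]
  apply sum_congr rfl
  intro v _
  rw [sum_filter]

/-- translation invariance of the difference -/
theorem transl {G H : SimpleGraph V} {π : V → Equiv.Perm V} (hH : Hypo G H π)
    (F : Fin k → Fin k → Prop) (w : Set (Fin k) → ℂ) (s : ℂ) :
    (∑ a ∈ Tup G F, ∏ y ∈ Out a, w (ty G a y)) - (∑ a ∈ Tup H F, ∏ y ∈ Out a, w (ty H a y)) =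
    (∑ a ∈ Tup G F, ∏ y ∈ Out a, (w (ty G a y) + s)) -
      (∑ a ∈ Tup H F, ∏ y ∈ Out a, (w (ty H a y) + s)) := by
  have hder : derivative (Fp G F w - Fp H F w) = 0 := by
    rw [derivative_sub, deriv_Fp, deriv_Fp, sub_eq_zero]
    exact sum_congr rfl (fun v _ => Fv_eq hH F w v)
  have hdeg := derivative_eq_zero.mp hder
  obtain ⟨c, hc⟩ := natDegree_eq_zero.mp hdeg
  have e0 : eval 0 (Fp G F w - Fp H F w) = c := by rw [← hc, eval_C]
  have es : eval s (Fp G F w - Fp H F w) = c := by rw [← hc, eval_C]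
  have ev : ∀ (K : SimpleGraph V) (t : ℂ), eval t (Fp K F w) =
      ∑ a ∈ Tup K F, ∏ y ∈ Out a, (w (ty K a y) + t) := by
    intro K t
    unfold Fp
    rw [eval_finsetSum]
    apply sum_congr rfl
    intro a _
    rw [eval_prod]
    apply prod_congr rfl
    intro y _
    simp
  rw [eval_sub, ev, ev] at e0 es
  rw [es, ← e0]
  simp

/-- the number of the outside vertices of type `T` -/
noncomputable def prof (G : SimpleGraph V) (a : Fin k → V) (T : Set (Fin k)) : ℕ :=
  ((Out a).filter (fun y => ty G a y = T)).card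

theorem card_Tup_le (G : SimpleGraph V) (F : Fin k → Fin k → Prop) :
    (Tup G F).card ≤ Fintype.card V ^ k := by
  calc _ ≤ (univ : Finset (Fin k → V)).card := card_le_card (subset_univ _)
    _ = _ := by rw [card_univ, Fintype.card_fun, Fintype.card_fin]

/-- codes of tuples -/
noncomputable def code (B : ℕ) (e : Set (Fin k) → ℕ) (G : SimpleGraph V) (a : Fin k → V) : ℕ :=
  ∑ y ∈ Out a, B ^ e (ty G a y)

theorem code_eq (B : ℕ) (e : Set (Fin k) → ℕ) (G : SimpleGraph V) (a : Fin k → V) :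
    code B e G a = ∑ T, prof G a T * B ^ e T := by
  unfold code prof
  rw [← sum_fiberwise (Out a) (fun y => ty G a y)]
  apply sum_congr rfl
  intro T _
  rw [card_eq_sum_ones, sum_mul]
  apply sum_congr rfl
  intro y hy
  rw [mem_filter] at hy
  rw [hy.2, one_mul]

theorem prof_le (G : SimpleGraph V) (a : Fin k → V) (T : Set (Fin k)) :
    prof G a T ≤ Fintype.card V := by
  unfold prof
  exact (card_le_card (subset_univ _)).trans_eq card_univ

/-- the integer polynomial -/
noncomputable def pZ (B : ℕ) (e : Set (Fin k) → ℕ) (G : SimpleGraph V) (F : Fin k → Fin k → Prop) :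
    ℤ[X] := ∑ a ∈ Tup G F, X ^ code B e G a

theorem coeff_pZ (B : ℕ) (e : Set (Fin k) → ℕ) (G : SimpleGraph V) (F : Fin k → Fin k → Prop)
    (s : ℕ) : (pZ B e G F).coeff s = ((Tup G F).filter (fun a => code B e G a = s)).card := by
  unfold pZ
  rw [finsetSum_coeff]
  simp_rw [coeff_X_pow]
  rw [card_filter]
  push_cast
  apply sum_congr rfl
  intro a _
  by_cases h : s = code B e G a
  · simp [h]
  · have h' : ¬ code B e G a = s := fun e => h e.symm
    simp [h, h']

theorem eval_pZ (B : ℕ) (e : Set (Fin k) → ℕ) (G : SimpleGraph V) (F : Fin k → Fin k → Prop)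
    (x : ℂ) : eval x ((pZ B e G F).map (Int.castRingHom ℂ)) =
      ∑ a ∈ Tup G F, ∏ y ∈ Out a, x ^ (B ^ e (ty G a y)) := by
  unfold pZ
  rw [Polynomial.map_sum, eval_finsetSum]
  apply sum_congr rfl
  intro a _
  rw [Polynomial.map_pow, Polynomial.map_X, eval_pow, eval_X, code, prod_pow_eq_pow_sum]

theorem norm_half {z : ℂ} (h1 : ‖z‖ = 1) (h2 : 1 / 2 ≤ z.re) : ‖z + (-(1 / 2) : ℂ)‖ ≤ √3 / 2 := by
  have h3 : ‖z‖ ^ 2 = z.re ^ 2 + z.im ^ 2 := by
    rw [← Complex.normSq_eq_norm_sq, Complex.normSq_apply]; ring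
  rw [h1] at h3
  have h4 : ‖z + (-(1 / 2) : ℂ)‖ ^ 2 = (z.re - 1 / 2) ^ 2 + z.im ^ 2 := by
    rw [← Complex.normSq_eq_norm_sq, Complex.normSq_apply]
    simp
    ring
  have h5 : ‖z + (-(1 / 2) : ℂ)‖ ^ 2 ≤ (√3 / 2) ^ 2 := by
    rw [h4, div_pow, Real.sq_sqrt (by norm_num)]
    nlinarith
  exact (pow_le_pow_iff_left₀ (norm_nonneg _) (by positivity) (by norm_num)).mp h5

/-- the main theorem for hypomorphic graphs, in terms of codes -/
theorem pZ_eq {G H : SimpleGraph V} {π : V → Equiv.Perm V} (hH : Hypo G H π)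
    (F : Fin k → Fin k → Prop) (e : Set (Fin k) → ℕ) (he : ∀ T, e T < 2 ^ k)
    (hV : 0 < Fintype.card V)
    (hn : 2 * 6 ^ (2 ^ k) * Real.log (2 * (Fintype.card V : ℝ) ^ k) <
      ((Fintype.card V - k : ℕ) : ℝ) * Real.log (4 / 3)) :
    pZ (6 * (Fintype.card V + 1)) e G F = pZ (6 * (Fintype.card V + 1)) e H F := by
  set n := Fintype.card V with hnn
  set B := 6 * (n + 1) with hB
  by_contra hne
  have hp : pZ B e G F - pZ B e H F ≠ 0 := sub_ne_zero.mpr hne
  have hnr : (0 : ℝ) < n := by exact_mod_cast hV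
  have hL : (0 : ℝ) < 2 * (n : ℝ) ^ k := by positivity
  have hs3 : (0 : ℝ) < √3 / 2 := by positivity
  have hcard : ∀ K : SimpleGraph V, ((Tup K F).card : ℝ) ≤ (n : ℝ) ^ k := by
    intro K
    exact_mod_cast card_Tup_le K F
  have key := core_ineq (pZ B e G F - pZ B e H F) hp (n + 1) (2 ^ k) (Nat.succ_pos n)
    (2 * (n : ℝ) ^ k) ((√3 / 2) ^ (n - k)) hL (by positivity) (by
      intro x hx
      rw [Polynomial.map_sub, eval_sub, eval_pZ, eval_pZ]
      have hb : ∀ K : SimpleGraph V, ‖∑ a ∈ Tup K F, ∏ y ∈ Out a, x ^ (B ^ e (ty K a y))‖ ≤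
          (n : ℝ) ^ k := by
        intro K
        refine (norm_sum_le_of_le _ (f := fun a => ∏ y ∈ Out a, x ^ (B ^ e (ty K a y)))
          (n := fun _ => (1 : ℝ)) ?_).trans ?_
        · intro a _
          simp [norm_prod, hx]
        · simpa using hcard K
      refine (norm_sub_le _ _).trans ?_
      have h1 := hb G
      have h2 := hb H
      linarith) (by
      intro x hx hre
      rw [Polynomial.map_sub, eval_sub, eval_pZ, eval_pZ]
      have htr := transl hH F (fun T => x ^ (B ^ e T)) (-(1 / 2))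
      rw [htr]
      have hb : ∀ K : SimpleGraph V,
          ‖∑ a ∈ Tup K F, ∏ y ∈ Out a, (x ^ (B ^ e (ty K a y)) + (-(1 / 2) : ℂ))‖ ≤
          (n : ℝ) ^ k * (√3 / 2) ^ (n - k) := by
        intro K
        refine (norm_sum_le_of_le _
          (f := fun a => ∏ y ∈ Out a, (x ^ (B ^ e (ty K a y)) + (-(1 / 2) : ℂ)))
          (n := fun _ => (√3 / 2) ^ (n - k)) ?_).trans ?_
        · intro a ha
          rw [norm_prod]
          have h1 : ∏ y ∈ Out a, ‖x ^ (B ^ e (ty K a y)) + (-(1 / 2) : ℂ)‖ ≤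
              ∏ _y ∈ Out a, (√3 / 2) := by
            apply prod_le_prod (fun _ _ => norm_nonneg _)
            intro y _
            apply norm_half
            · rw [norm_pow, hx, one_pow]
            · exact hre _ (he _)
          rw [prod_const, card_Out (mem_Tup.mp ha).1] at h1
          exact h1
        · rw [sum_const, nsmul_eq_mul]
          exact mul_le_mul_of_nonneg_right (hcard K) (by positivity)
      refine (norm_sub_le _ _).trans ?_
      have h1 := hb G
      have h2 := hb H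
      linarith)
  rw [Real.log_pow] at key
  have hlog : Real.log (√3 / 2) = - (Real.log (4 / 3) / 2) := by
    have h1 : Real.log ((√3 / 2) ^ 2) = 2 * Real.log (√3 / 2) := by
      rw [Real.log_pow]; norm_num
    have h2 : (√3 / 2) ^ 2 = (4 / 3)⁻¹ := by
      rw [div_pow, Real.sq_sqrt (by norm_num)]; norm_num
    rw [h2, Real.log_inv] at h1
    linarith
  rw [hlog] at key
  have h6 : (0 : ℝ) < 6 ^ (2 ^ k) := by positivity
  have h7 : (0 : ℝ) ≤ 6 ^ (2 ^ k) * (Real.log (2 * (n : ℝ) ^ k) +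
      (1 / 6) ^ (2 ^ k) * (((n - k : ℕ) : ℝ) * -(Real.log (4 / 3) / 2))) :=
    mul_nonneg h6.le key
  have h8 : (6 : ℝ) ^ (2 ^ k) * (Real.log (2 * (n : ℝ) ^ k) +
      (1 / 6) ^ (2 ^ k) * (((n - k : ℕ) : ℝ) * -(Real.log (4 / 3) / 2))) =
      6 ^ (2 ^ k) * Real.log (2 * (n : ℝ) ^ k) - ((n - k : ℕ) : ℝ) * Real.log (4 / 3) / 2 := by
    rw [div_pow, one_pow]
    field_simp
    ring
  rw [h8] at h7
  linarith

end Pool.Agent.Q295.VP
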