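import Pool.Agent.Q295.VP.Deck

set_option autoImplicit false
set_option linter.unusedSectionVars false

/-!
The profiles of the `k`-tuples of vertices are reconstructible.
-/

namespace Pool.Agent.Q295.VP

open Finset Polynomial Classical
open Pool.Agent.H234RC (Hypo NonIso Reconstructible exists_hypo SameDeck card_iso whole_iso)

variable {V : Type} [Fintype V] {k : ℕ}

/-- the number of tuples with given adjacencies and given numbers of outside vertices of each
type -/
noncomputable def cnt (G : SimpleGraph V) (F : Fin k → Fin k → Prop) (c : Set (Fin k) → ℕ) : ℕ :=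
  ((Tup G F).filter (fun a => ∀ T, prof G a T = c T)).card

theorem digits_inj {q B : ℕ} (f g : Fin q → ℕ) (hf : ∀ i, f i < B) (hg : ∀ i, g i < B)
    (h : ∑ i, f i * B ^ (i : ℕ) = ∑ i, g i * B ^ (i : ℕ)) : f = g := by
  have h1 : (finFunctionFinEquiv (fun i => (⟨f i, hf i⟩ : Fin B)) : ℕ) =
      finFunctionFinEquiv (fun i => (⟨g i, hg i⟩ : Fin B)) := by
    rw [finFunctionFinEquiv_apply, finFunctionFinEquiv_apply]
    exact h
  have h2 := finFunctionFinEquiv.injective (Fin.ext h1)
  funext i
  have := congrFun h2 i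
  simpa using this

theorem cnt_eq {G H : SimpleGraph V} {π : V → Equiv.Perm V} (hH : Hypo G H π)
    (F : Fin k → Fin k → Prop) (c : Set (Fin k) → ℕ)
    (hV : 0 < Fintype.card V)
    (hn : 2 * 6 ^ (2 ^ k) * Real.log (2 * (Fintype.card V : ℝ) ^ k) <
      ((Fintype.card V - k : ℕ) : ℝ) * Real.log (4 / 3)) :
    cnt G F c = cnt H F c := by
  set n := Fintype.card V with hnn
  have hcard : Fintype.card (Set (Fin k)) = 2 ^ k := by
    rw [Fintype.card_set, Fintype.card_fin]
  let E : Set (Fin k) ≃ Fin (2 ^ k) := Fintype.equivFinOfCardEq hcard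
  let e : Set (Fin k) → ℕ := fun T => (E T : ℕ)
  set B := 6 * (n + 1) with hB
  have hmain := pZ_eq hH F e (fun T => (E T).2) hV hn
  by_cases hc : ∀ T, c T ≤ n
  · have hkey : ∀ K : SimpleGraph V, cnt K F c =
        ((Tup K F).filter (fun a => code B e K a = ∑ T, c T * B ^ e T)).card := by
      intro K
      unfold cnt
      congr 1
      apply filter_congr
      intro a _
      rw [code_eq]
      constructor
      · intro h
        exact sum_congr rfl (fun T _ => by rw [h T])
      · intro h
        have h1 : ∀ d : Set (Fin k) → ℕ, ∑ T, d T * B ^ e T =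
            ∑ i : Fin (2 ^ k), d (E.symm i) * B ^ (i : ℕ) := by
          intro d
          rw [← Equiv.sum_comp E]
          apply sum_congr rfl
          intro T _
          rw [E.symm_apply_apply]
        rw [h1, h1] at h
        have h2 := digits_inj (fun i => prof K a (E.symm i)) (fun i => c (E.symm i))
          (fun i => by have := prof_le K a (E.symm i); omega)
          (fun i => by have := hc (E.symm i); omega) h
        intro T
        have h3 := congrFun h2 (E T)
        simp only [E.symm_apply_apply] at h3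
        exact h3
    rw [hkey, hkey]
    have h4 := coeff_pZ B e G F (∑ T, c T * B ^ e T)
    have h5 := coeff_pZ B e H F (∑ T, c T * B ^ e T)
    rw [hmain, h5] at h4
    exact_mod_cast h4.symm
  · push Not at hc
    obtain ⟨T, hT⟩ := hc
    have h0 : ∀ K : SimpleGraph V, cnt K F c = 0 := by
      intro K
      unfold cnt
      rw [card_eq_zero, filter_eq_empty_iff]
      intro a _ h
      have h1 := prof_le K a T
      have h2 := h T
      omega
    rw [h0, h0]

/-! ### Unions of types -/

/-- the number of the outside vertices with type in `U` -/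
noncomputable def profU (G : SimpleGraph V) (U : Set (Set (Fin k))) (a : Fin k → V) : ℕ :=
  ((Out a).filter (fun y => ty G a y ∈ U)).card

/-- the number of tuples with `j` outside vertices with type in `U` -/
noncomputable def cntU (G : SimpleGraph V) (F : Fin k → Fin k → Prop) (U : Set (Set (Fin k)))
    (j : ℕ) : ℕ := ((Tup G F).filter (fun a => profU G U a = j)).card

/-- the polynomial with the coefficients `cntU` -/
noncomputable def pU (G : SimpleGraph V) (F : Fin k → Fin k → Prop) (U : Set (Set (Fin k))) :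
    ℤ[X] := ∑ a ∈ Tup G F, X ^ profU G U a

theorem coeff_pU (G : SimpleGraph V) (F : Fin k → Fin k → Prop) (U : Set (Set (Fin k)))
    (j : ℕ) : (pU G F U).coeff j = cntU G F U j := by
  unfold pU cntU
  rw [finsetSum_coeff]
  simp_rw [coeff_X_pow]
  rw [card_filter]
  push_cast
  apply sum_congr rfl
  intro a _
  by_cases h : j = profU G U a
  · simp [h]
  · have h' : ¬ profU G U a = j := fun e => h e.symm
    simp [h, h']

theorem prod_U (G : SimpleGraph V) (U : Set (Set (Fin k))) (a : Fin k → V) (x y : ℂ) :
    ∏ z ∈ Out a, (if ty G a z ∈ U then x else y) =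
      x ^ profU G U a * y ^ ((Out a).card - profU G U a) := by
  rw [prod_ite, prod_const, prod_const]
  congr 2
  unfold profU
  have := card_filter_add_card_filter_not (s := Out a) (fun z => ty G a z ∈ U)
  omega

theorem cntU_eq {G H : SimpleGraph V} {π : V → Equiv.Perm V} (hH : Hypo G H π)
    (F : Fin k → Fin k → Prop) (U : Set (Set (Fin k))) (j : ℕ)
    (hn : 2 * Fintype.card V ^ k < 2 ^ (Fintype.card V - k)) :
    cntU G F U j = cntU H F U j := by
  set n := Fintype.card V with hnn
  set N := n - k with hN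
  -- the identity
  have hle : ∀ K : SimpleGraph V, ∀ a ∈ Tup K F, profU K U a ≤ N := by
    intro K a ha
    rw [hN, hnn, ← card_Out (mem_Tup.mp ha).1]
    exact card_le_card (filter_subset _ _)
  have hid : ∀ t s : ℂ, (∑ a ∈ Tup G F, t ^ profU G U a * 0 ^ (N - profU G U a)) -
      (∑ a ∈ Tup H F, t ^ profU H U a * 0 ^ (N - profU H U a)) =
      (∑ a ∈ Tup G F, (t + s) ^ profU G U a * s ^ (N - profU G U a)) -
      (∑ a ∈ Tup H F, (t + s) ^ profU H U a * s ^ (N - profU H U a)) := by
    intro t s
    have h1 := transl hH F (fun T => if T ∈ U then t else 0) s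
    have h2 : ∀ K : SimpleGraph V, (∑ a ∈ Tup K F, ∏ y ∈ Out a, (if ty K a y ∈ U then t else 0)) =
        ∑ a ∈ Tup K F, t ^ profU K U a * 0 ^ (N - profU K U a) := by
      intro K
      apply sum_congr rfl
      intro a ha
      rw [prod_U, card_Out (mem_Tup.mp ha).1]
    have h3 : ∀ K : SimpleGraph V,
        (∑ a ∈ Tup K F, ∏ y ∈ Out a, ((if ty K a y ∈ U then t else 0) + s)) =
        ∑ a ∈ Tup K F, (t + s) ^ profU K U a * s ^ (N - profU K U a) := by
      intro K
      apply sum_congr rfl
      intro a ha
      rw [hN, hnn, ← card_Out (mem_Tup.mp ha).1, ← prod_U]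
      apply prod_congr rfl
      intro y _
      split_ifs
      · rfl
      · rw [zero_add]
    rw [h2, h2, h3, h3] at h1
    exact h1
  have hzero : ∀ K : SimpleGraph V, (∑ a ∈ Tup K F, (1 : ℂ) ^ profU K U a *
      0 ^ (N - profU K U a)) = (cntU K F U N : ℂ) := by
    intro K
    unfold cntU
    rw [card_filter]
    push_cast
    apply sum_congr rfl
    intro a ha
    have := hle K a ha
    by_cases h : profU K U a = N
    · simp [h]
    · have h' : N - profU K U a ≠ 0 := by omega
      simp [h, h']
  -- the top numbers agree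
  have htop : (cntU G F U N : ℤ) = cntU H F U N := by
    by_contra hne
    have h1 : (1 : ℤ) ≤ |(cntU G F U N : ℤ) - cntU H F U N| :=
      Int.one_le_abs (sub_ne_zero.mpr hne)
    have h2 : (1 : ℝ) ≤ ‖(cntU G F U N : ℂ) - cntU H F U N‖ := by
      have : (cntU G F U N : ℂ) - cntU H F U N = (((cntU G F U N : ℤ) - cntU H F U N : ℤ) : ℂ) := by
        push_cast
        rfl
      rw [this, Complex.norm_intCast]
      exact_mod_cast h1
    have h3 := hid 1 (-(1 / 2))
    rw [hzero, hzero] at h3
    rw [h3] at h2
    have hb : ∀ K : SimpleGraph V, ‖∑ a ∈ Tup K F, ((1 : ℂ) + (-(1 / 2))) ^ profU K U a *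
        (-(1 / 2)) ^ (N - profU K U a)‖ ≤ (n : ℝ) ^ k * (1 / 2) ^ N := by
      intro K
      refine (norm_sum_le_of_le _ (n := fun _ => ((1 : ℝ) / 2) ^ N) ?_).trans ?_
      · intro a ha
        have e1 : ‖(1 : ℂ) + (-(1 / 2))‖ = 1 / 2 := by norm_num
        have e2 : ‖(-(1 / 2) : ℂ)‖ = 1 / 2 := by norm_num
        rw [norm_mul, norm_pow, norm_pow, e1, e2, ← pow_add]
        have := hle K a ha
        rw [show profU K U a + (N - profU K U a) = N by omega]
      · rw [sum_const, nsmul_eq_mul]
        apply mul_le_mul_of_nonneg_right _ (by positivity)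
        exact_mod_cast card_Tup_le K F
    have h4 := (norm_sub_le (∑ a ∈ Tup G F, ((1 : ℂ) + (-(1 / 2))) ^ profU G U a *
        (-(1 / 2)) ^ (N - profU G U a)) (∑ a ∈ Tup H F, ((1 : ℂ) + (-(1 / 2))) ^ profU H U a *
        (-(1 / 2)) ^ (N - profU H U a)))
    have h5 := hb G
    have h6 := hb H
    have h7 : (2 : ℝ) * (n : ℝ) ^ k < 2 ^ N := by exact_mod_cast hn
    have h8 : (1 / 2 : ℝ) ^ N * 2 ^ N = 1 := by
      rw [← mul_pow]; norm_num
    have h9 : (0 : ℝ) < 2 ^ N := by positivity
    have h10 : (1 : ℝ) ≤ 2 * (n : ℝ) ^ k * (1 / 2) ^ N := by linarith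
    have h11 : (1 : ℝ) * 2 ^ N ≤ 2 * (n : ℝ) ^ k * (1 / 2) ^ N * 2 ^ N :=
      mul_le_mul_of_nonneg_right h10 h9.le
    rw [mul_assoc, h8] at h11
    linarith
  -- the polynomials agree at all points
  have hpol : (pU G F U).map (Int.castRingHom ℂ) = (pU H F U).map (Int.castRingHom ℂ) := by
    apply Polynomial.eq_of_infinite_eval_eq
    apply (Set.finite_singleton (1 : ℂ)).infinite_compl.mono
    intro z hz0
    have hz : z ≠ 1 := hz0
    show eval z _ = eval z _
    · have hz' : z - 1 ≠ 0 := sub_ne_zero.mpr hz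
      have h1 := hid 1 ((z - 1)⁻¹)
      rw [hzero, hzero] at h1
      have h2 : (cntU G F U N : ℂ) - cntU H F U N = 0 := by
        rw [sub_eq_zero]
        exact_mod_cast htop
      rw [h2] at h1
      have h3 : ∀ K : SimpleGraph V, ∑ a ∈ Tup K F, (1 + (z - 1)⁻¹) ^ profU K U a *
          ((z - 1)⁻¹) ^ (N - profU K U a) =
          ((z - 1)⁻¹) ^ N * eval z ((pU K F U).map (Int.castRingHom ℂ)) := by
        intro K
        unfold pU
        rw [Polynomial.map_sum, eval_finsetSum, mul_sum]
        apply sum_congr rfl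
        intro a ha
        rw [Polynomial.map_pow, Polynomial.map_X, eval_pow, eval_X]
        have h4 : 1 + (z - 1)⁻¹ = (z - 1)⁻¹ * z := by
          field_simp
          ring
        have h5 : ((z - 1)⁻¹) ^ N = ((z - 1)⁻¹) ^ profU K U a * ((z - 1)⁻¹) ^ (N - profU K U a) := by
          rw [← pow_add]
          have := hle K a ha
          rw [show profU K U a + (N - profU K U a) = N by omega]
        rw [h4, h5, mul_pow]
        ring
      rw [h3, h3, ← mul_sub] at h1
      have h6 : ((z - 1)⁻¹) ^ N ≠ 0 := pow_ne_zero _ (inv_ne_zero hz')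
      exact sub_eq_zero.mp ((mul_eq_zero.mp h1.symm).resolve_left h6)
  have hpol2 : pU G F U = pU H F U :=
    Polynomial.map_injective _ (RingHom.injective_int (Int.castRingHom ℂ)) hpol
  have h1 := coeff_pU G F U j
  rw [hpol2, coeff_pU] at h1
  exact_mod_cast h1.symm

end Pool.Agent.Q295.VP
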